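import Mathlib
import Pool.Agent.P.MP_a94181_al.Aut

namespace Pool.Agent.Results.MP_a94181_al.NoExponent

/-- For every real `a > 0` there is a finite nilpotent group `G` (indeed a finite 2-group) whose
automorphism group has order less than `φ(|G|) ^ a`. -/
theorem result (a : ℝ) (ha : 0 < a) :
    ∃ (G : Type) (_ : Group G) (_ : Finite G), IsPGroup 2 G ∧ Group.IsNilpotent G ∧
      (Nat.card (MulAut G) : ℝ) < (Nat.totient (Nat.card G) : ℝ) ^ a := by
  obtain ⟨k, n, h1, h2⟩ := Pool.Agent.P.MP_a94181_al.main a ha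
  have : Fact (Nat.Prime 2) := ⟨Nat.prime_two⟩
  exact ⟨_, inferInstance, inferInstance, h1, h1.isNilpotent, h2⟩

end Pool.Agent.Results.MP_a94181_al.NoExponent
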